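import Pool.Agent.H18Thick.Count

set_option autoImplicit false

/-!
# The smallest order of a `(6t-1)`-regular graph of thickness `t` is `12 t`
-/

namespace Pool.Agent.Results.MP_eeeb33_co.SmallestOrder

open Pool.Agent.H18Thick

/-- counting edges in a decomposition into planar graphs -/
lemma decomposition_bound {n t k : ℕ} (hn : 3 ≤ n) (G : SimpleGraph (Fin n))
    (hdeg : ∀ v, (G.neighborSet v).ncard = 6 * t - 1)
    (H : Fin k → SimpleGraph (Fin n)) (hp : ∀ i, IsPlanar (H i))
    (hd : ∀ i j, i ≠ j → Disjoint (H i).edgeSet (H j).edgeSet)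
    (hu : (⋃ i, (H i).edgeSet) = G.edgeSet) :
    n * (6 * t - 1) + 12 * k ≤ 6 * k * n := by
  have h1 := two_edges G _ hdeg
  have h2 := sum_ncard G H hd hu
  rw [Nat.card_eq_fintype_card, Fintype.card_fin] at h1
  have h3 : ∀ i, (H i).edgeSet.ncard + 6 ≤ 3 * n := by
    intro i
    have := (hp i).edge_bound (by rw [Nat.card_eq_fintype_card, Fintype.card_fin]; exact hn)
    rwa [Nat.card_eq_fintype_card, Fintype.card_fin] at this
  have h4 : ∑ i : Fin k, ((H i).edgeSet.ncard + 6) ≤ ∑ _i : Fin k, 3 * n :=
    Finset.sum_le_sum (fun i _ => h3 i)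
  rw [Finset.sum_add_distrib, ← h2, Finset.sum_const, Finset.sum_const, Finset.card_univ,
    Fintype.card_fin, smul_eq_mul, smul_eq_mul] at h4
  nlinarith

/-- **Main theorem.** For every `t ≥ 1`, the smallest number of vertices of a `(6t-1)`-regular
graph of thickness `t` is exactly `12 t`. -/
theorem result (t : ℕ) (ht : 1 ≤ t) :
    IsLeast {n : ℕ | ∃ G : SimpleGraph (Fin n),
      (∀ v, (G.neighborSet v).ncard = 6 * t - 1) ∧ thickness G = t} (12 * t) := by
  constructor
  · obtain ⟨N, hN⟩ : ∃ N, N + 1 = 2 * t := ⟨2 * t - 1, by omega⟩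
    have hcard : Fintype.card (W N) = 12 * t := by
      rw [← Nat.card_eq_fintype_card, card_W]; omega
    let φ : W N ≃ Fin (12 * t) := Fintype.equivFinOfCardEq hcard
    let G : SimpleGraph (Fin (12 * t)) := (GG t N).comap φ.symm
    let H : Fin t → SimpleGraph (Fin (12 * t)) := fun j => (TJ t N j).comap φ.symm
    have hdeg : ∀ v, (G.neighborSet v).ncard = 6 * t - 1 := by
      intro v
      rw [← deg_GG hN (φ.symm v)]
      have : G.neighborSet v = φ '' ((GG t N).neighborSet (φ.symm v)) := by
        ext w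
        simp only [G, SimpleGraph.mem_neighborSet, SimpleGraph.comap_adj, Set.mem_image]
        constructor
        · intro h
          exact ⟨φ.symm w, h, φ.apply_symm_apply w⟩
        · rintro ⟨x, hx, rfl⟩
          rwa [φ.symm_apply_apply]
      rw [this, Set.ncard_image_of_injective _ φ.injective]
    have hp : ∀ i, IsPlanar (H i) := fun i =>
      planar_of_iso_TG ht hN ((isoTJ hN i).trans (SimpleGraph.Iso.comap φ.symm (TJ t N i)).symm)
    have hd : ∀ i j, i ≠ j → Disjoint (H i).edgeSet (H j).edgeSet := fun i j hij =>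
      disjoint_edgeSet _ _ (fun v w a b => hij (tj_disj hN _ _ i j a b))
    have hu : (⋃ i, (H i).edgeSet) = G.edgeSet :=
      iUnion_edgeSet G H (fun v w => gg_adj_iff hN _ _)
    refine ⟨G, hdeg, ?_⟩
    apply le_antisymm
    · exact Nat.sInf_le ⟨H, hp, hd, hu⟩
    · unfold thickness
      refine le_csInf ⟨t, H, hp, hd, hu⟩ ?_
      rintro k ⟨H', hp', hd', hu'⟩
      have := decomposition_bound (by omega) G hdeg H' hp' hd' hu'
      by_contra hlt
      push Not at hlt
      obtain ⟨s, rfl⟩ : ∃ s, t = s + 1 := ⟨t - 1, by omega⟩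
      have e1 : 6 * (s + 1) - 1 = 6 * s + 5 := by omega
      rw [e1] at this
      have e2 : k ≤ s := by omega
      have e3 : 6 * k * (12 * (s + 1)) ≤ 6 * s * (12 * (s + 1)) :=
        Nat.mul_le_mul_right _ (by omega)
      nlinarith
  · rintro n ⟨G, hdeg, hth⟩
    have hmem : thickness G ∈ {k : ℕ | ∃ H : Fin k → SimpleGraph (Fin n), (∀ i, IsPlanar (H i)) ∧
        (∀ i j, i ≠ j → Disjoint (H i).edgeSet (H j).edgeSet) ∧
        (⋃ i, (H i).edgeSet) = G.edgeSet} := by
      apply Nat.sInf_mem
      by_contra hne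
      rw [Set.not_nonempty_iff_eq_empty] at hne
      have : thickness G = 0 := by
        unfold thickness
        rw [hne]; exact Nat.sInf_empty
      omega
    rw [hth] at hmem
    obtain ⟨H, hp, hd, hu⟩ := hmem
    -- `n` is not too small
    have hn : 3 ≤ n := by
      rcases Nat.eq_zero_or_pos n with h0 | h0
      · exfalso
        subst h0
        have hG : G.edgeSet = ∅ := by
          ext e
          induction e with
          | _ v w => exact v.elim0
        have : thickness G ≤ 0 := by
          apply Nat.sInf_le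
          refine ⟨fun i => i.elim0, fun i => i.elim0, fun i => i.elim0, ?_⟩
          rw [hG]; simp
        omega
      · have h1 := hdeg ⟨0, h0⟩
        have h2 : (G.neighborSet ⟨0, h0⟩).ncard ≤ n := by
          have := Set.ncard_le_ncard (Set.subset_univ (G.neighborSet ⟨0, h0⟩))
          rwa [Set.ncard_univ, Nat.card_eq_fintype_card, Fintype.card_fin] at this
        omega
    have := decomposition_bound hn G hdeg H hp hd hu
    obtain ⟨s, rfl⟩ : ∃ s, t = s + 1 := ⟨t - 1, by omega⟩
    have e1 : 6 * (s + 1) - 1 = 6 * s + 5 := by omega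
    rw [e1] at this
    nlinarith

end Pool.Agent.Results.MP_eeeb33_co.SmallestOrder
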